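import Pool.Agent.XV.Stmts
import Pool.Agent.SRF.Defs
import Pool.Agent.EN2.Defs

/-!
# The interfaces between the parts of the disproof

* `Stmt_Count` : from a complete close model to an exact surface with full counts;
* `Stmt_Num`   : from full counts to effectivity of all numerically trivial classes;
* `Stmt_Alg`   : from effectivity to the two rational functions (closed points);
* `Stmt_End`   : the contradiction.
-/

set_option autoImplicit false

noncomputable section

namespace Pool.Agent.DIS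

open scoped Classical
open MvPolynomial Pool.Agent.LibDb3ab1 Pool.Agent.DC Pool.Agent.FRM Pool.Agent.EN2 Pool.Agent.SRF

/-- The ten curves on the moduli space of five points, see `XV.ed`, `XV.Disj`. -/
abbrev Edge : Type := Fin 10

section surface

variable {K : Type} [Field K] (O : ValuationSubring K) {F : Type} [Field F] [Algebra K F]
  (x y : F)

/-- `f` is bounded by `max (1, |x|, |y|) ^ n` at all places over `O`. -/
def IntO (n : ℕ) (f : F) : Prop :=
  ∀ W : Pl O F, ∃ i : Fin 3, f / z x y i ^ n ∈ W.W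

/-- `f` is smaller than `max (1, |x|, |y|)` at the place `W`. -/
def Small (W : ValuationSubring F) (f : F) : Prop :=
  ∃ i : Fin 3, z x y i ≠ 0 ∧ f / z x y i ∈ W.nonunits

/-- The prime divisor `e` is in the tube defined by the coordinates `X i`, `i ∈ A`. -/
def InTube {ι : Type} (X : ι → F) (A : Set ι) (e : ValuationSubring F) : Prop :=
  ∀ W : Pl O F, W.W ≤ e → ∀ i ∈ A, Small x y W.W (X i)

variable (K)

/-- Sections of `n H` with poles of any order on the prime divisors in `T`. -/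
def PolesOn (T : PP K x y → Prop) (n : ℕ) : Submodule K F where
  carrier := {f | f = 0 ∨ ∀ e : PP K x y, ¬ T e → - (n * H K x y e) ≤ ord e.1 f}
  zero_mem' := Or.inl rfl
  add_mem' := by
    intro f g hf hg
    by_cases h0 : f = 0
    · rw [h0, zero_add]; exact hg
    by_cases h1 : g = 0
    · rw [h1, add_zero]; exact hf
    by_cases h2 : f + g = 0
    · exact Or.inl h2
    right
    intro e he
    exact le_trans (le_min (hf.resolve_left h0 e he) (hg.resolve_left h1 e he))
      (e.isOrd.add h0 h1 h2)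
  smul_mem' := by
    intro c f hf
    by_cases h0 : f = 0
    · left; rw [h0, smul_zero]
    by_cases hc : c = 0
    · left; rw [hc, zero_smul]
    right
    intro e he
    rw [Algebra.smul_def, e.isOrd.mul _ _ (by rw [Ne, map_eq_zero]; exact hc) h0,
      ord_const K x y e c hc, zero_add]
    exact hf.resolve_left h0 e he

/-- The degree of the surface over the plane. -/
def deg : ℕ := Module.finrank (IntermediateField.adjoin K {x, y}) F

end surface

/-- Every finite subset of `K` is contained in a subfield on which the valuation ring is a complete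
discrete valuation ring with the same residue field. -/
def Dvrs {K : Type} [Field K] (O : ValuationSubring K) : Prop :=
  ∀ A : Finset K, ∃ K₁ : Subfield K, (∀ a ∈ A, a ∈ K₁) ∧
    IsDiscreteValuationRing (O.comap K₁.subtype) ∧
    IsAdicComplete (IsLocalRing.maximalIdeal (O.comap K₁.subtype)) (O.comap K₁.subtype) ∧
    ∀ a ∈ O, ∃ b ∈ K₁, b ∈ O ∧ (a - b) ∈ O.nonunits

/-- An exact surface over an algebraically closed valued field of rank one: the surface `T` of
DIS 4.3, close to `S`. -/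
structure ExactSurf {p : ℕ} [Fact p.Prime] {J : Type} (E : Eqs p XV.N J) where
  /-- the field -/
  K : Type
  [field : Field K]
  [closed : IsAlgClosed K]
  [char : CharP K p]
  /-- the valuation ring -/
  O : ValuationSubring K
  arch : Arch O
  algres : ∀ a : O, ∃ m : ℕ, 0 < m ∧ (a ^ (p ^ m) - a) ∈ IsLocalRing.maximalIdeal O
  dvr : Dvrs O
  /-- the parameter of the tilt -/
  t : K
  t_ne : t ≠ 0
  t_mem : t ∈ O.nonunits
  /-- the function field -/
  F : Type
  [fieldF : Field F]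
  [alg : Algebra K F]
  /-- the plane coordinates -/
  x : F
  y : F
  surf : IsSurf K x y
  /-- the coordinates -/
  X : Fin (XV.N + 1) → F
  coord : ∀ i, IntO O x y 1 (X i)
  lin0 : ∃ l : Fin (XV.N + 1) → O, 1 = ∑ i, (l i : K) • X i
  linx : ∃ l : Fin (XV.N + 1) → O, x = ∑ i, (l i : K) • X i
  liny : ∃ l : Fin (XV.N + 1) → O, y = ∑ i, (l i : K) • X i
  close : ∀ j, IntO O x y (p * E.e j) (algebraMap K F (t⁻¹ ^ (p + 1)) *
    (aeval X (E.g j) ^ p + algebraMap K F (t ^ p) * aeval X (E.g₁ j)))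
  tube : ∀ i, 1 ≤ (XV.pt i).w → ∃ a ∈ O.nonunits, a ≠ 0 ∧ IntO O x y 1 (a⁻¹ • X i)

attribute [instance] ExactSurf.field ExactSurf.closed ExactSurf.char ExactSurf.fieldF ExactSurf.alg

namespace ExactSurf

variable {p : ℕ} [Fact p.Prime] {J : Type} {E : Eqs p XV.N J} (T : ExactSurf E)

/-- Prime divisors in the tube of `D_s`. -/
def Tub (s : Edge) (e : PP T.K T.x T.y) : Prop :=
  InTube T.O T.x T.y T.X {i | 1 ≤ (XV.pt i).e s} e.1

/-- DIS 4.5: the full count of the sections with poles in the tube of `D_s`. -/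
def Full : Prop :=
  ∀ s : Edge, ∀ ε : ℝ, 0 < ε → ∃ n₀ : ℕ, ∀ n : ℕ, n₀ ≤ n →
    ∃ W : Submodule T.K T.F, W ≤ PolesOn T.K T.x T.y (T.Tub s) n ∧
      ((3 / 5 : ℝ) * deg T.K T.x T.y - ε) * n ^ 2 ≤ Module.finrank T.K W

end ExactSurf

/-- COUNT + ALG (DIS 4). -/
def Stmt_Count : Prop :=
  ∀ (p : ℕ) [Fact p.Prime] (J : Type) [Finite J] (E : Eqs p XV.N J), XV.GoodEqs E →
    CompleteModel E 3 → ∃ T : ExactSurf E, T.Full

/-- A class `c₀ L + ∑ c_s D_s` which is numerically trivial on the surface `S`. -/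
def NT (c₀ : ℤ) (c : Edge → ℤ) : Prop :=
  ∀ s : Edge, 2 * c₀ - c s + ∑ t : Edge, (if XV.Disj s t then c t else 0) = 0

section big

variable {K : Type} [Field K] {F : Type} [Field F] [Algebra K F] (x y : F)

/-- The rounded divisor `n (c₀ H + ∑ c_s D_s)`, `D_s = ∑ (r e) e` over `e ∈ CC s`. -/
def rdiv (CC : Edge → Finset (PP K x y)) (r : PP K x y → ℝ) (c₀ : ℤ) (c : Edge → ℤ) (n : ℕ)
    (e : PP K x y) : ℤ :=
  n * c₀ * H K x y e + ⌊(n : ℝ) * ∑ s : Edge, (c s : ℝ) * (if e ∈ CC s then r e else 0)⌋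

/-- Prime divisors without common point. -/
def NoMeet (e e' : PP K x y) : Prop :=
  ∀ V : ValuationSubring F, (∀ a : K, algebraMap K F a ∈ V) → thr K x y e.1 V →
    ¬ thr K x y e'.1 V

/-- The output of the numerical part: finitely many exact curves over each of the ten curves, with
positive multiplicities; curves over disjoint curves are disjoint; all numerically trivial classes
are effective up to a fixed divisor and powers of `p`. -/
structure Big (p : ℕ) (CC : Edge → Finset (PP K x y)) (r : PP K x y → ℝ) : Prop where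
  pos : ∀ s, ∀ e ∈ CC s, 0 < r e
  nonempty : ∀ s, (CC s).Nonempty
  once : ∀ s s', s ≠ s' → Disjoint (CC s) (CC s')
  disj : ∀ s s' : Edge, s ≠ s' → ¬ XV.Disj s s' → ∀ e ∈ CC s, ∀ e' ∈ CC s', NoMeet x y e e'
  big : ∃ C : PP K x y → ℤ, {e | C e ≠ 0}.Finite ∧ ∀ (c₀ : ℤ) (c : Edge → ℤ), NT c₀ c →
    ∀ n : ℕ, ∃ m : ℕ, ∃ f : F, f ≠ 0 ∧
      f ∈ L K x y (fun e => p ^ m * (C e + rdiv x y CC r c₀ c n e))

/-- `f` has no poles outside of the curves over `D_s`, `s ∈ A`. -/
def RegOff (CC : Edge → Finset (PP K x y)) (A : Finset Edge) (f : F) : Prop :=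
  ∀ e : PP K x y, (∀ s ∈ A, e ∉ CC s) → 0 ≤ ord e.1 f

/-- The two exact functions: `a` for the cross ratio `p₁₂ p₃₄ / (p₁₃ p₂₄)` (the pencil of the point
5) and `a'` for `p₁₂ p₃₅ / (p₁₃ p₂₅)` (the pencil of the point 4). -/
structure Funs (CC : Edge → Finset (PP K x y)) (a a' : F) : Prop where
  nc : a ∉ Set.range (algebraMap K F)
  ne0 : a ≠ 0
  ne0' : a' ≠ 0
  ne1 : a ≠ 1
  ne1' : a' ≠ 1
  reg : RegOff x y CC {XV.ed 0 2, XV.ed 1 3} a
  reg' : RegOff x y CC {XV.ed 0 2, XV.ed 1 4} a'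
  quo : RegOff x y CC {XV.ed 2 3, XV.ed 1 4, XV.ed 1 3, XV.ed 2 4} (a / a')
  quo1 : RegOff x y CC {XV.ed 0 3, XV.ed 1 4, XV.ed 1 3, XV.ed 0 4} ((1 - a) / (1 - a'))

end big

/-- NUMERICS (DIS 5, 6). -/
def Stmt_Num : Prop :=
  ∀ (p : ℕ) [Fact p.Prime] (J : Type) [Finite J] (E : Eqs p XV.N J), XV.GoodEqs E →
    ∀ T : ExactSurf E, T.Full → ∃ (CC : Edge → Finset (PP T.K T.x T.y))
    (r : PP T.K T.x T.y → ℝ), (∀ s, ∀ e ∈ CC s, T.Tub s e) ∧ Big T.x T.y p CC r

/-- SPREAD, TOR, END-1, BACK (DIS 7, 8, 9): a purely algebraic statement over an algebraically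
closed field of characteristic two. -/
def Stmt_Alg : Prop :=
  ∀ (K : Type) [Field K] [IsAlgClosed K] [CharP K 2] (F : Type) [Field F] [Algebra K F]
    (x y : F), IsSurf K x y → ∀ (CC : Edge → Finset (PP K x y)) (r : PP K x y → ℝ),
    Big x y 2 CC r → ∃ a a' : F, Funs x y CC a a'

/-- END-2 (DIS 10). -/
def Stmt_End : Prop :=
  ∀ (J : Type) [Finite J] (E : Eqs 2 XV.N J), XV.GoodEqs E → ∀ T : ExactSurf E, ∀ CC : Edge → Finset (PP T.K T.x T.y),
    (∀ s, ∀ e ∈ CC s, T.Tub s e) → ∀ a a' : T.F, ¬ Funs T.x T.y CC a a'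

/-- The assembly of the core. -/
theorem core (h1 : Stmt_Count) (h2 : Stmt_Num) (h3 : Stmt_Alg) (h4 : Stmt_End) (J : Type)
    [Finite J] (E : Eqs 2 XV.N J) (hE : XV.GoodEqs E) : IsEmpty (CompleteModel E 3) := by
  refine ⟨fun M => ?_⟩
  obtain ⟨T, hT⟩ := h1 2 J E hE M
  obtain ⟨CC, r, htub, hbig⟩ := h2 2 J E hE T hT
  obtain ⟨a, a', h⟩ := h3 T.K T.F T.x T.y T.surf CC r hbig
  exact h4 J E hE T CC htub a a' h

/-- The reduction of an integral equation is an equation. -/
theorem red_mem (A : Type) [CommRing A] {g : MvPolynomial (Fin (XV.N + 1)) ℤ}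
    (hg : g ∈ XV.I ℤ) : red A g ∈ XV.I A := by
  have h0 : XV.cx ℤ g = 0 := hg
  have h : ∀ g : MvPolynomial (Fin (XV.N + 1)) ℤ, XV.cx A (red A g) =
      MvPolynomial.map (Int.castRingHom A) (XV.cx ℤ g) := by
    intro g
    induction g using MvPolynomial.induction_on with
    | C a => simp [XV.cx, red]
    | add f g hf hg => simp only [map_add, red] at *; rw [hf, hg]
    | mul_X f i hf =>
      simp only [map_mul, red] at *
      rw [hf]
      congr 1
      simp [XV.cx, XV.cm, XV.mon, XV.br, XV.br2]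
  show XV.cx A (red A g) = 0
  rw [h, h0, map_zero]

/-- The assembly of the disproof. -/
theorem negation (hF : Stmt_FrameC) (hS : XV.Stmt_Smv) (hB : XV.Stmt_Fib) (hG : XV.Stmt_Gen)
    (h1 : Stmt_Count) (h2 : Stmt_Num) (h3 : Stmt_Alg) (h4 : Stmt_End) : Negation 2 := by
  obtain ⟨J, hJ, E, hE⟩ := hG 2
  refine negation_of_core hF E (XV.I ℂ_[2]) (hS ℂ_[2]) (fun j => ?_) (hB (ZMod 2) _ fun g hg => ?_)
    (core h1 h2 h3 h4 J E hE)
  · have h : E.g j ∈ XV.I ℤ := hE.span ▸ Ideal.subset_span ⟨j, rfl⟩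
    exact red_mem ℂ_[2] h
  · rw [← hE.span] at hg
    have h : Ideal.map (MvPolynomial.map (Int.castRingHom (ZMod 2)))
        (Ideal.span (Set.range E.g)) ≤
          Ideal.span (Set.range fun j => red (ZMod 2) (E.g j)) := by
      rw [Ideal.map_span]
      refine Ideal.span_mono ?_
      rintro _ ⟨_, ⟨j, rfl⟩, rfl⟩
      exact ⟨j, rfl⟩
    exact h (Ideal.mem_map_of_mem _ hg)

end Pool.Agent.DIS
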