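import Pool.Agent.SRF.All
import Pool.Agent.SPR.PLX
import Pool.Agent.SPR.PLH
import Pool.Agent.SPR.PLC
import Pool.Agent.SPR.MDL
import Pool.Agent.SPR.MIR
import Pool.Agent.SPR.NSC
import Pool.Agent.SPR.GIR
import Pool.Agent.SPR.SPM
import Pool.Agent.SPR.SPE
import Pool.Agent.SPR.GRG
import Pool.Agent.SPR.GAU
import Pool.Agent.SPR.GPO
import Pool.Agent.SPR.GUN
import Pool.Agent.SPR.RDL
import Pool.Agent.SPR.MUL
import Pool.Agent.SPR.FWD
import Pool.Agent.SPR.LES
import Pool.Agent.SPR.DJS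
import Pool.Agent.SPR.NCS
import Pool.Agent.SPR.REP
import Pool.Agent.SPR.TRF
import Pool.Agent.SPR.BAL
import Pool.Agent.SPR.BAK
import Pool.Agent.CPT.PTS
import Pool.Agent.CPT.TPT
import Pool.Agent.CPT.RAP
import Pool.Agent.CPT.ANN
import Pool.Agent.CPT.MainE
import Pool.Agent.SPR.Alg

/-!
# The algebraic part of the disproof (DIS 7, 8, 9)

From effectivity of the numerically trivial classes to the two functions, over an algebraically
closed field of characteristic two.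
-/

set_option autoImplicit false

namespace Pool.Agent.DIS

open Pool.Agent Pool.Agent.SPR

theorem Alg.plc : Stmt_PLC := PLC_proof PLX_proof PLH_proof
theorem Alg.mdl : Stmt_MDL := MDL_proof SRF.All.bas
theorem Alg.spe : Stmt_SPE := SPE_proof MIR_proof (GIR_proof NSC_proof) SPM_proof
theorem Alg.gau : Stmt_GAU := GAU_proof GRG_proof
theorem Alg.gun : Stmt_GUN := GUN_proof GPO_proof
theorem Alg.rdl : Stmt_RDL := RDL_proof GPO_proof SRF.All.scq SRF.All.sci SRF.All.hch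
theorem Alg.fwd : Stmt_FWD := FWD_proof Alg.rdl MUL_proof
theorem Alg.les : Stmt_LES :=
  LES_proof Alg.gun Alg.rdl SRF.All.crt SRF.All.zer SRF.All.cen SRF.All.hch SRF.All.sec SRF.All.bnd
theorem Alg.djs : Stmt_DJS :=
  DJS_proof Alg.gun Alg.fwd SRF.All.dis SRF.All.cen SRF.All.thc SRF.All.sec SRF.All.hch
theorem Alg.ncs : Stmt_NCS :=
  NCS_proof Alg.gun Alg.fwd SRF.All.ncc SRF.All.zer SRF.All.cen SRF.All.hch SRF.All.sec
theorem Alg.rep : Stmt_REP := REP_proof SRF.All.scq SRF.All.sci SRF.All.sec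
theorem Alg.bal : Stmt_BAL :=
  BAL_proof Alg.gun GPO_proof Alg.rep (TRF_proof NSC_proof) SRF.All.scp SRF.All.sci
theorem Alg.bak : Stmt_BAK := BAK_proof Alg.gun MUL_proof Alg.bal
theorem Alg.cpp : CPT.Stmt_CPP :=
  CPT.cpp_proof (CPT.pts_proof (CPT.tpt_proof CPT.rap_proof CPT.ann_proof)) CPT.end1

/-- SPREAD, TOR, END-1 and BACK. -/
theorem alg : Stmt_Alg :=
  alg_proof Alg.plc Alg.mdl Alg.spe Alg.gau Alg.fwd Alg.les Alg.djs Alg.ncs Alg.bak Alg.cpp
    SRF.All.sup SRF.All.fch SRF.All.fq SRF.All.sci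

end Pool.Agent.DIS
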