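import Pool.Agent.DIS.Interface

/-!
# The disproof for all primes: interface
-/

set_option autoImplicit false

noncomputable section

namespace Pool.Agent.DIS

open scoped Classical
open MvPolynomial Pool.Agent.LibDb3ab1 Pool.Agent.DC Pool.Agent.FRM Pool.Agent.EN2 Pool.Agent.SRF

/-- SPREAD, TOR, END-1, BACK for all primes. -/
def Stmt_AlgP : Prop :=
  ∀ (p : ℕ) [Fact p.Prime] (K : Type) [Field K] [IsAlgClosed K] [CharP K p] (F : Type) [Field F]
    [Algebra K F] (x y : F), IsSurf K x y → ∀ (CC : Edge → Finset (PP K x y)) (r : PP K x y → ℝ),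
    Big x y p CC r → ∃ a a' : F, Funs x y CC a a'

/-- END-2 for all primes. -/
def Stmt_EndP : Prop :=
  ∀ (p : ℕ) [Fact p.Prime] (J : Type) [Finite J] (E : Eqs p XV.N J), XV.GoodEqs E →
    ∀ T : ExactSurf E, ∀ CC : Edge → Finset (PP T.K T.x T.y),
    (∀ s, ∀ e ∈ CC s, T.Tub s e) → ∀ a a' : T.F, ¬ Funs T.x T.y CC a a'

/-- The assembly of the core for all primes. -/
theorem coreP (h1 : Stmt_Count) (h2 : Stmt_Num) (h3 : Stmt_AlgP) (h4 : Stmt_EndP) (p : ℕ)
    [Fact p.Prime] (J : Type) [Finite J] (E : Eqs p XV.N J) (hE : XV.GoodEqs E) :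
    IsEmpty (CompleteModel E 3) := by
  refine ⟨fun M => ?_⟩
  obtain ⟨T, hT⟩ := h1 p J E hE M
  obtain ⟨CC, r, htub, hbig⟩ := h2 p J E hE T hT
  obtain ⟨a, a', h⟩ := h3 p T.K T.F T.x T.y T.surf CC r hbig
  exact h4 p J E hE T CC htub a a' h

/-- The assembly of the disproof for all primes. -/
theorem negationP (hF : Stmt_FrameC) (hS : XV.Stmt_Smv) (hB : XV.Stmt_Fib) (hG : XV.Stmt_Gen)
    (h1 : Stmt_Count) (h2 : Stmt_Num) (h3 : Stmt_AlgP) (h4 : Stmt_EndP) (p : ℕ) [Fact p.Prime] :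
    Negation p := by
  obtain ⟨J, hJ, E, hE⟩ := hG p
  refine negation_of_core hF E (XV.I ℂ_[p]) (hS ℂ_[p]) (fun j => ?_) (hB (ZMod p) _ fun g hg => ?_)
    (coreP h1 h2 h3 h4 p J E hE)
  · have h : E.g j ∈ XV.I ℤ := hE.span ▸ Ideal.subset_span ⟨j, rfl⟩
    exact red_mem ℂ_[p] h
  · rw [← hE.span] at hg
    have h : Ideal.map (MvPolynomial.map (Int.castRingHom (ZMod p)))
        (Ideal.span (Set.range E.g)) ≤
          Ideal.span (Set.range fun j => red (ZMod p) (E.g j)) := by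
      rw [Ideal.map_span]
      refine Ideal.span_mono ?_
      rintro _ ⟨_, ⟨j, rfl⟩, rfl⟩
      exact ⟨j, rfl⟩
    exact h (Ideal.mem_map_of_mem _ hg)

end Pool.Agent.DIS
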