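import Pool.Agent.DIS.Alg
import Pool.Agent.SPU.Alg

/-!
# The algebraic part of the disproof for all primes, from END-1

From effectivity of the numerically trivial classes to the two functions, over an algebraically
closed field of characteristic `p`, assuming the closed point theorem `CPU.Stmt_END1`.
-/

set_option autoImplicit false

namespace Pool.Agent.DIS

open Pool.Agent Pool.Agent.SPR

theorem AlgP.pts : CPT.Stmt_PTS := CPT.pts_proof (CPT.tpt_proof CPT.rap_proof CPT.ann_proof)

/-- SPREAD, TOR and BACK for all primes. -/
theorem algP (hEND1 : CPU.Stmt_END1) : Stmt_AlgP :=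
  SPU.alg_proof Alg.plc Alg.mdl Alg.spe Alg.gau Alg.fwd Alg.les Alg.djs Alg.ncs Alg.bak
    (SPU.cpp_proof AlgP.pts hEND1) SRF.All.sup SRF.All.fch SRF.All.fq SRF.All.sci

end Pool.Agent.DIS
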