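import Pool.Agent.EN2.Fin2
import Pool.Agent.SRF.SCQ
import Pool.Agent.SRF.BAS
import Pool.Agent.SRF.FIN
import Pool.Agent.SRF.SEC
import Pool.Agent.SRF.REC
import Pool.Agent.SRF.REG
import Pool.Agent.SRF.FRA
import Pool.Agent.SRF.LOC
import Pool.Agent.SRF.LIF
import Pool.Agent.SRF.DVQ
import Pool.Agent.SRF.HCH
import Pool.Agent.SRF.CEN
import Pool.Agent.XV.SYM
import Pool.Agent.XV.COV
import Pool.Agent.XV.CHV
import Pool.Agent.XV.CHR
import Pool.Agent.XV.BIN
import Pool.Agent.XV.TRI
import Pool.Agent.XV.HOM
import Pool.Agent.XV.TRE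
import Pool.Agent.XV.FAN

/-!
# END-2, unconditional
-/

set_option autoImplicit false

noncomputable section

namespace Pool.Agent.DIS

open Pool.Agent.EN2 Pool.Agent.SRF Pool.Agent.XV

/-- The library statement SCQ, with all its inputs. -/
theorem scq : Stmt_SCQ := by
  have hBAS := BAS_proof
  have hFIN := FIN_proof hBAS
  have hFRA := FRA_proof hBAS
  have hCEN := CEN_proof
  have hLOC := LOC_proof hCEN LIF_proof
  have hDVQ := DVQ_proof hFIN hFRA
  have hREG := REG_proof hFIN hFRA hLOC hDVQ
  have hREC := REC_proof hREG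
  have hHCH := HCH_proof hCEN
  exact SCQ_proof hBAS hFIN (SEC_proof hREC hHCH)

/-- The statements on the variety which are used. -/
theorem xvs : XVS where
  sym := sym_proof
  cov := cov_proof sym_proof hom_proof (chv_proof bin_proof) tre_proof fan_proof
  chv := chv_proof bin_proof
  chr := chr_proof bin_proof tri_proof
  bin := bin_proof
  tri := tri_proof

/-- **END-2 is proved.** -/
theorem end_proof : Stmt_End := stmt_end scq xvs

end Pool.Agent.DIS
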