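import Pool.Agent.FRM.All
import Pool.Agent.XV.All
import Pool.Agent.FIN.Count
import Pool.Agent.NUM.All
import Pool.Agent.SFB.All
import Pool.Agent.DIL.All
import Pool.Agent.DIS.Alg
import Pool.Agent.DIS.End
import Pool.Agent.DIS.Interface

/-!
# The disproof: assembly
-/

set_option autoImplicit false

namespace Pool.Agent.DIS

open Pool.Agent

/-- NUMERICS. -/
theorem num : Stmt_Num := NUM.stmtNum SFB.All.nin

/-- COUNT. -/
theorem count_of (hTub : FIN.Stmt_Tub) : Stmt_Count := FIN.count_of_tub DIL.exact hTub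

/-- The core theorem for `p = 2`. -/
theorem core2_of (hTub : FIN.Stmt_Tub) (J : Type) [Finite J] (E : FRM.Eqs 2 XV.N J)
    (hE : XV.GoodEqs E) : IsEmpty (FRM.CompleteModel E 3) :=
  core (count_of hTub) num alg end_proof J E hE

/-- The disproof for `K = ℂ_[2]`. -/
theorem negation_of (hTub : FIN.Stmt_Tub) : Negation 2 :=
  negation FRM.frameC_proof XV.smv XV.fib XV.gen (count_of hTub) num alg end_proof

end Pool.Agent.DIS
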