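import Pool.Agent.DIS.End
import Pool.Agent.EN2P.Fin

/-!
# END-2 for all primes
-/

set_option autoImplicit false

noncomputable section

namespace Pool.Agent.DIS

/-- **END-2 is proved for all primes.** -/
theorem endP_proof : Stmt_EndP := EN2P.stmt_end scq xvs

end Pool.Agent.DIS
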