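import Pool.Agent.FRM.StmtsB

/-!
# The disproof, from the properties of the variety and the core theorem
-/

set_option autoImplicit false

noncomputable section

namespace Pool.Agent.DIS

open scoped Classical
open MvPolynomial Pool.Agent.LibDb3ab1 Pool.Agent.DC Pool.Agent.FRM

/-- The homogeneous ideal `I` defines a smooth closed subscheme of dimension `d` of the projective
space of dimension `N` over the algebraically closed field `K` (Jacobian criterion): `I` is prime,
the quotient has dimension `d + 1` and at each zero `x ≠ 0` of `I` there are `N - d` elements of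
`I` with linearly independent gradients. -/
structure SmoothVariety {K : Type} [Field K] {N : ℕ} (d : ℕ)
    (I : Ideal (MvPolynomial (Fin (N + 1)) K)) : Prop where
  prime : I.IsPrime
  hom : ∀ F ∈ I, ∀ m, homogeneousComponent m F ∈ I
  dim : ringKrullDim (MvPolynomial (Fin (N + 1)) K ⧸ I) = (d + 1 : ℕ)
  smooth : ∀ x : Fin (N + 1) → K, x ≠ 0 → (∀ F ∈ I, eval x F = 0) →
    ∃ G : Fin (N - d) → MvPolynomial (Fin (N + 1)) K, (∀ i, G i ∈ I) ∧
      LinearIndependent K fun i (l : Fin (N + 1)) => eval x (pderiv l (G i))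

/-- The negated form of the question, for the field `ℂ_[p]`: there is a smooth closed subvariety
`X` of a projective space over `ℂ_[p]` and an open neighbourhood `U` of `X^ad` such that no closed
subscheme of the projective space over the tilt which has the dimension of `X` is contained in
the preimage of `U`. -/
def Negation (p : ℕ) [Fact p.Prime] : Prop :=
  ∃ (N d : ℕ) (I : Ideal (MvPolynomial (Fin (N + 1)) ℂ_[p])), SmoothVariety d I ∧
    ∃ U : Set (AdicProj 𝓞_ℂ_[p] N), IsOpen U ∧ adicLocus 𝓞_ℂ_[p] I ⊆ U ∧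
      ∀ 𝔓 : Ideal (MvPolynomial (Fin (N + 1)) (FractionRing (PreTilt 𝓞_ℂ_[p] p))),
        (∀ F ∈ 𝔓, ∀ m, homogeneousComponent m F ∈ 𝔓) →
        ringKrullDim (MvPolynomial (Fin (N + 1)) (FractionRing (PreTilt 𝓞_ℂ_[p] p)) ⧸ 𝔓) =
          (d + 1 : ℕ) → ¬TiltInside p 𝓞_ℂ_[p] 𝔓 U

/-- The final assembly. -/
theorem negation_of_core (hF : Stmt_FrameC) {p N d : ℕ} [Fact p.Prime] {J : Type} [Finite J]
    (E : Eqs p N J) (I : Ideal (MvPolynomial (Fin (N + 1)) ℂ_[p])) (hI : SmoothVariety d I)
    (hEI : ∀ j, red ℂ_[p] (E.g j) ∈ I)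
    (hdim : ringKrullDim (MvPolynomial (Fin (N + 1)) (ZMod p) ⧸
      Ideal.span (Set.range fun j => red (ZMod p) (E.g j))) ≤ (d + 1 : ℕ))
    (hcore : IsEmpty (CompleteModel E d)) : Negation p :=
  ⟨N, d, I, hI, hF p N d J E hdim hcore I hEI⟩

end Pool.Agent.DIS
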